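import Pool.Agent.Run7.h148.AX.Stm2

/-!
Project AX (helper148), piece GB2.
-/

set_option autoImplicit false

open MeasureTheory Set Filter Topology
open scoped ENNReal ContDiff FourierTransform

namespace Pool.Agent.Run7.h264.AX

open Pool.Agent.Run7.h148.AX

theorem iw_meas : Measurable iw := by
  unfold iw
  fun_prop

/-- `|ξ|⁻¹` is integrable on the unit ball -/
theorem iw_ball : (∫⁻ ξ in Metric.ball (0 : E3) 1, iw ξ) < ⊤ := by
  have h : IntegrableOn (fun ξ : E3 => ‖ξ‖⁻¹) (Metric.ball 0 1) volume := by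
    rw [integrableOn_fun_norm_addHaar (μ := volume) (f := fun y : ℝ => y⁻¹)]
    have hf : Module.finrank ℝ E3 - 1 = 2 := by simp
    rw [hf]
    refine Measure.integrableOn_of_bounded (M := 1) (by simp) ?_ ?_
    · exact (by fun_prop : Measurable fun y : ℝ => y ^ 2 • y⁻¹).aestronglyMeasurable
    · refine (ae_restrict_iff' measurableSet_Ioo).2 (Eventually.of_forall fun y hy => ?_)
      have : y ^ 2 • y⁻¹ = y := by
        rw [smul_eq_mul, pow_two, mul_assoc, mul_inv_cancel₀ hy.1.ne', mul_one]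
      rw [this, Real.norm_eq_abs, abs_of_pos hy.1]
      exact hy.2.le
  have h2 := h.lintegral_lt_top
  exact h2

/-- the integral of `|ξ|⁻¹ b` -/
theorem iw_bd : ∃ c : ℝ, 0 ≤ c ∧ ∀ (b : E3 → ℝ≥0∞) (D : ℝ), 0 ≤ D → Measurable b →
    (∀ ξ, b ξ ≤ ENNReal.ofReal D) → (∫⁻ ξ, b ξ) ≤ ENNReal.ofReal D →
    (∫⁻ ξ, iw ξ * b ξ) ≤ ENNReal.ofReal (c * D) := by
  refine ⟨(∫⁻ ξ in Metric.ball (0 : E3) 1, iw ξ).toReal + 1, by positivity, ?_⟩
  intro b D hD hb h1 h2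
  have hpt : ∀ ξ, iw ξ * b ξ
      ≤ (Metric.ball (0 : E3) 1).indicator (fun ξ => iw ξ * ENNReal.ofReal D) ξ + b ξ := by
    intro ξ
    by_cases hξ : ξ ∈ Metric.ball (0 : E3) 1
    · rw [indicator_of_mem hξ]
      exact le_add_right (mul_le_mul_right (h1 ξ) _)
    · rw [indicator_of_notMem hξ, zero_add]
      have : iw ξ ≤ 1 := by
        unfold iw
        rw [ENNReal.ofReal_le_one]
        rw [mem_ball_zero_iff, not_lt] at hξ
        exact inv_le_one_of_one_le₀ hξ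
      calc iw ξ * b ξ ≤ 1 * b ξ := mul_le_mul_left this _
        _ = b ξ := one_mul _
  calc (∫⁻ ξ, iw ξ * b ξ)
      ≤ ∫⁻ ξ, ((Metric.ball (0 : E3) 1).indicator (fun ξ => iw ξ * ENNReal.ofReal D) ξ + b ξ) :=
        lintegral_mono hpt
    _ = (∫⁻ ξ, (Metric.ball (0 : E3) 1).indicator (fun ξ => iw ξ * ENNReal.ofReal D) ξ)
        + ∫⁻ ξ, b ξ := lintegral_add_right _ hb
    _ = (∫⁻ ξ in Metric.ball (0 : E3) 1, iw ξ) * ENNReal.ofReal D + ∫⁻ ξ, b ξ := by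
        rw [lintegral_indicator Metric.isOpen_ball.measurableSet, lintegral_mul_const _ iw_meas]
    _ ≤ ENNReal.ofReal (∫⁻ ξ in Metric.ball (0 : E3) 1, iw ξ).toReal * ENNReal.ofReal D
        + ENNReal.ofReal D := by
        rw [ENNReal.ofReal_toReal iw_ball.ne]
        gcongr
    _ = _ := by
        rw [← ENNReal.ofReal_mul ENNReal.toReal_nonneg, ← ENNReal.ofReal_add (by positivity) hD]
        congr 1; ring

/-- the exponential integral -/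
theorem exp_int (c B : ℝ) (hc : 0 < c) (hB : 0 ≤ B) :
    (∫⁻ s in Ioi (0 : ℝ), ENNReal.ofReal (B * Real.exp (-(c * s)))) = ENNReal.ofReal (B / c) := by
  have h0 : ∀ s : ℝ, -(c * s) = -c * s := fun s => by ring
  simp only [h0]
  have h1 : Integrable (fun s : ℝ => B * Real.exp (-c * s)) (volume.restrict (Ioi 0)) :=
    (exp_neg_integrableOn_Ioi 0 hc).const_mul B
  rw [← ofReal_integral_eq_lintegral_ofReal h1
    (Eventually.of_forall fun s => mul_nonneg hB (Real.exp_pos _).le)]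
  congr 1
  rw [integral_const_mul, integral_exp_mul_Ioi (by linarith : -c < 0) 0, mul_zero, Real.exp_zero]
  field_simp

/-- sup norm and sum -/
theorem enorm_le_sum (v : C3) : ‖v‖ₑ ≤ ∑ k, ‖v k‖ₑ := by
  have h : ‖v‖ ≤ ∑ k, ‖v k‖ := by
    refine (pi_norm_le_iff_of_nonneg (by positivity)).2 fun k => ?_
    exact Finset.single_le_sum (f := fun k => ‖v k‖) (fun _ _ => norm_nonneg _) (Finset.mem_univ k)
  rw [← ofReal_norm]
  refine (ENNReal.ofReal_le_ofReal h).trans ?_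
  rw [ENNReal.ofReal_sum_of_nonneg (fun _ _ => norm_nonneg _)]
  simp only [ofReal_norm, le_refl]

/-- the projection -/
theorem lp_le (ξ : E3) (v : C3) : ‖h148.AX.lp ξ v‖ ≤ 4 * ‖v‖ := by
  refine (pi_norm_le_iff_of_nonneg (by positivity)).2 fun k => ?_
  show ‖v k - (ξ k : ℂ) * dt ξ v / ((‖ξ‖ ^ 2 : ℝ) : ℂ)‖ ≤ 4 * ‖v‖
  have hj : ∀ j, |ξ j| ≤ ‖ξ‖ := fun j => by
    have := EuclideanSpace.norm_eq ξ
    have := PiLp.norm_apply_le ξ j
    simpa using this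
  have hd : ‖dt ξ v‖ ≤ 3 * (‖ξ‖ * ‖v‖) := by
    unfold dt
    refine (norm_sum_le _ _).trans ?_
    calc ∑ j, ‖(ξ j : ℂ) * v j‖ ≤ ∑ _j : Fin 3, ‖ξ‖ * ‖v‖ := by
          apply Finset.sum_le_sum
          intro j _
          rw [norm_mul, Complex.norm_real, Real.norm_eq_abs]
          exact mul_le_mul (hj j) (norm_le_pi_norm v j) (norm_nonneg _) (norm_nonneg _)
      _ = 3 * (‖ξ‖ * ‖v‖) := by simp
  refine (norm_sub_le _ _).trans ?_
  have h1 : ‖v k‖ ≤ ‖v‖ := norm_le_pi_norm v k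
  have h2 : ‖(ξ k : ℂ) * dt ξ v / ((‖ξ‖ ^ 2 : ℝ) : ℂ)‖ ≤ 3 * ‖v‖ := by
    rw [norm_div, norm_mul, Complex.norm_real, Complex.norm_real, Real.norm_eq_abs,
      Real.norm_eq_abs, abs_of_nonneg (by positivity : (0 : ℝ) ≤ ‖ξ‖ ^ 2)]
    rcases eq_or_ne ξ 0 with rfl | hξ
    · simp
    · have hξ0 : 0 < ‖ξ‖ := norm_pos_iff.2 hξ
      rw [div_le_iff₀ (by positivity)]
      calc |ξ k| * ‖dt ξ v‖ ≤ ‖ξ‖ * (3 * (‖ξ‖ * ‖v‖)) := by
            gcongr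
            exact hj k
        _ = 3 * ‖v‖ * ‖ξ‖ ^ 2 := by ring
  linarith

theorem lp_ele (ξ : E3) (v : C3) : ‖h148.AX.lp ξ v‖ₑ ≤ 4 * ‖v‖ₑ := by
  rw [← ofReal_norm, ← ofReal_norm]
  refine (ENNReal.ofReal_le_ofReal (lp_le ξ v)).trans ?_
  rw [ENNReal.ofReal_mul (by norm_num)]
  simp

theorem NN_one (n : ℕ) : (1 : ℝ) ≤ NN n := by
  unfold NN
  have : (0 : ℝ) ≤ n := Nat.cast_nonneg n
  linarith

/-- the bound of a vector family of order 1 -/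
theorem fam_bd (ν : ℝ) (hν : 0 < ν) (hOC4 : S_OC4) (F : Fin 3 → Fam) (hF : ∀ k, F k ∈ OO ν 1) :
    ∃ C : ℝ, 0 ≤ C ∧ ∀ n,
      (Measurable fun z : ℝ × E3 => fun k => 𝓕 (fun x => ((F k n z.1 x : ℝ) : ℂ)) z.2) ∧
      ∀ t, 0 ≤ t →
        (∀ ξ, ‖(fun k => 𝓕 (fun x => ((F k n t x : ℝ) : ℂ)) ξ : C3)‖ₑ
          ≤ ENNReal.ofReal (C * NN n * Real.exp (-(ta ν n t / 2)))) ∧
        (∫⁻ ξ, ‖(fun k => 𝓕 (fun x => ((F k n t x : ℝ) : ℂ)) ξ : C3)‖ₑ)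
          ≤ ENNReal.ofReal (C * NN n * Real.exp (-(ta ν n t / 2))) := by
  have h := fun k => hOC4 ν 1 (F k) hν (hF k)
  choose hm hb using h
  have h2 := fun k => hb k 0
  choose C hC hCb using h2
  refine ⟨∑ k, C k, Finset.sum_nonneg fun k _ => hC k, fun n => ⟨?_, ?_⟩⟩
  · exact measurable_pi_lambda _ fun k => hm k n
  intro t ht
  have hN := NN_one n
  have hN0 : 0 < NN n := by linarith
  have hsum : ENNReal.ofReal ((∑ k, C k) * NN n * Real.exp (-(ta ν n t / 2)))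
      = ∑ k, ENNReal.ofReal (C k * NN n * Real.exp (-(ta ν n t / 2))) := by
    rw [Finset.sum_mul, Finset.sum_mul, ENNReal.ofReal_sum_of_nonneg]
    intro k _
    have := hC k
    positivity
  have hz : ((1 : ℤ) + ((0 : ℕ) : ℤ)) = 1 := by norm_num
  have hwk : ∀ ξ : E3, wk 0 ξ = 1 := fun ξ => by simp [wk]
  rw [hsum]
  constructor
  · intro ξ
    refine (enorm_le_sum _).trans (Finset.sum_le_sum fun k _ => ?_)
    have := (hCb k n t ht).1 ξ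
    rw [pow_zero, one_mul, hz, zpow_one] at this
    rw [← ofReal_norm]
    exact ENNReal.ofReal_le_ofReal this
  · calc (∫⁻ ξ, ‖(fun k => 𝓕 (fun x => ((F k n t x : ℝ) : ℂ)) ξ : C3)‖ₑ)
        ≤ ∫⁻ ξ, ∑ k, ‖𝓕 (fun x => ((F k n t x : ℝ) : ℂ)) ξ‖ₑ :=
          lintegral_mono fun ξ => enorm_le_sum _
      _ = ∑ k, ∫⁻ ξ, ‖𝓕 (fun x => ((F k n t x : ℝ) : ℂ)) ξ‖ₑ := by
          apply lintegral_finsetSum
          intro k _
          have e : Measurable fun ξ : E3 => ((t, ξ) : ℝ × E3) := measurable_const.prodMk measurable_id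
          have := (hm k n).comp e
          exact this.enorm
      _ ≤ _ := by
          refine Finset.sum_le_sum fun k _ => ?_
          have := (hCb k n t ht).2
          simp only [hwk, one_mul, hz, zpow_one] at this
          exact this

theorem iw_nw (ξ : E3) : iw ξ * nw ξ ≤ 1 := by
  unfold iw nw
  rw [← ENNReal.ofReal_mul (by positivity), ENNReal.ofReal_le_one]
  exact inv_mul_le_one_of_le₀ le_rfl (norm_nonneg _)

theorem iw_sq (κ e : ℝ) (hκ : 0 ≤ κ) (he : 0 ≤ e) (ξ : E3) :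
    iw ξ * ENNReal.ofReal (κ * ‖ξ‖ ^ 2 * e) ≤ ENNReal.ofReal (κ * e) * wk 1 ξ := by
  unfold iw wk
  rw [← ENNReal.ofReal_mul (by positivity), ← ENNReal.ofReal_mul (by positivity)]
  apply ENNReal.ofReal_le_ofReal
  rcases eq_or_ne ξ 0 with rfl | hξ
  · simp; positivity
  · have hξ0 : 0 < ‖ξ‖ := norm_pos_iff.2 hξ
    have : ‖ξ‖⁻¹ * (κ * ‖ξ‖ ^ 2 * e) = κ * e * ‖ξ‖ := by field_simp
    rw [this, pow_one]
    have : 0 ≤ κ * e := by positivity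
    nlinarith

/-- bound of the residual at one time -/
theorem r_bound (hNLB : S_NLB) (hCVM : S_CVM) (c : ℝ)
    (hiw : ∀ (b : E3 → ℝ≥0∞) (D : ℝ), 0 ≤ D → Measurable b →
      (∀ ξ, b ξ ≤ ENNReal.ofReal D) → (∫⁻ ξ, b ξ) ≤ ENNReal.ofReal D →
      (∫⁻ ξ, iw ξ * b ξ) ≤ ENNReal.ofReal (c * D)) (hc : 0 ≤ c)
    (κ e D m m1 : ℝ) (hκ : 0 ≤ κ) (he : 0 ≤ e) (hD : 0 ≤ D) (hm : 0 ≤ m) (hm1 : 0 ≤ m1)
    (v w : E3 → C3) (hv : Measurable v) (hw : Measurable w)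
    (hw1 : ∀ ξ, ‖w ξ‖ₑ ≤ ENNReal.ofReal D) (hw2 : (∫⁻ ξ, ‖w ξ‖ₑ) ≤ ENNReal.ofReal D)
    (hv0 : (∫⁻ ξ, ‖v ξ‖ₑ) ≤ ENNReal.ofReal m)
    (hv1 : (∫⁻ ξ, wk 1 ξ * ‖v ξ‖ₑ) ≤ ENNReal.ofReal m1) :
    (∫⁻ ξ, iw ξ * ‖Pool.Agent.Run7.h148.AX.lp ξ (w ξ) + (κ * ‖ξ‖ ^ 2 * e) • v ξ
      - (e ^ 2) • nl v v ξ‖ₑ)
      ≤ ENNReal.ofReal (4 * (c * D) + κ * e * m1 + 40 * e ^ 2 * (m * m)) := by
  have hvm : Measurable fun ξ => ‖v ξ‖ₑ := hv.enorm
  have hwm : Measurable fun ξ => ‖w ξ‖ₑ := hw.enorm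
  have hwk : Measurable fun ξ : E3 => wk 1 ξ := by
    unfold wk
    fun_prop
  obtain ⟨hcm, hci⟩ := hCVM.1 (fun ξ => ‖v ξ‖ₑ) (fun ξ => ‖v ξ‖ₑ) hvm hvm
  have hpt : ∀ ξ, iw ξ * ‖Pool.Agent.Run7.h148.AX.lp ξ (w ξ) + (κ * ‖ξ‖ ^ 2 * e) • v ξ
      - (e ^ 2) • nl v v ξ‖ₑ ≤ 4 * (iw ξ * ‖w ξ‖ₑ) + ENNReal.ofReal (κ * e) * (wk 1 ξ * ‖v ξ‖ₑ)
        + ENNReal.ofReal (40 * e ^ 2) * cv (fun ξ => ‖v ξ‖ₑ) (fun ξ => ‖v ξ‖ₑ) ξ := by
    intro ξ
    have h1 : ‖Pool.Agent.Run7.h148.AX.lp ξ (w ξ) + (κ * ‖ξ‖ ^ 2 * e) • v ξ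
        - (e ^ 2) • nl v v ξ‖ₑ ≤ 4 * ‖w ξ‖ₑ + ENNReal.ofReal (κ * ‖ξ‖ ^ 2 * e) * ‖v ξ‖ₑ
          + ENNReal.ofReal (e ^ 2) * (40 * nw ξ * cv (fun ξ => ‖v ξ‖ₑ) (fun ξ => ‖v ξ‖ₑ) ξ) := by
      refine (enorm_sub_le).trans ?_
      refine add_le_add ((enorm_add_le _ _).trans (add_le_add (lp_ele _ _) ?_)) ?_
      · rw [enorm_smul, Real.enorm_eq_ofReal (by positivity)]
      · rw [enorm_smul, Real.enorm_eq_ofReal (by positivity)]
        exact mul_le_mul_right (hNLB v v ξ) _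
    refine (mul_le_mul_right h1 _).trans ?_
    rw [mul_add, mul_add]
    refine add_le_add (add_le_add ?_ ?_) ?_
    · exact le_of_eq (by ring)
    · rw [← mul_assoc, ← mul_assoc]
      exact mul_le_mul_left (iw_sq κ e hκ he ξ) _
    · have h40 : ENNReal.ofReal (40 * e ^ 2) = 40 * ENNReal.ofReal (e ^ 2) := by
        rw [ENNReal.ofReal_mul (by norm_num)]; simp
      rw [h40]
      calc iw ξ * (ENNReal.ofReal (e ^ 2) * (40 * nw ξ * cv (fun ξ => ‖v ξ‖ₑ) (fun ξ => ‖v ξ‖ₑ) ξ))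
          = (iw ξ * nw ξ) * (40 * ENNReal.ofReal (e ^ 2)
            * cv (fun ξ => ‖v ξ‖ₑ) (fun ξ => ‖v ξ‖ₑ) ξ) := by ring
        _ ≤ 1 * (40 * ENNReal.ofReal (e ^ 2)
            * cv (fun ξ => ‖v ξ‖ₑ) (fun ξ => ‖v ξ‖ₑ) ξ) := mul_le_mul_left (iw_nw ξ) _
        _ = _ := one_mul _
  have k1 : Measurable fun ξ => iw ξ * ‖w ξ‖ₑ := iw_meas.mul hwm
  have k2 : Measurable fun ξ => wk 1 ξ * ‖v ξ‖ₑ := hwk.mul hvm
  have hm2' : Measurable fun ξ => ENNReal.ofReal (κ * e) * (wk 1 ξ * ‖v ξ‖ₑ) :=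
    k2.const_mul _
  have hm3' : Measurable fun ξ => ENNReal.ofReal (40 * e ^ 2)
      * cv (fun ξ => ‖v ξ‖ₑ) (fun ξ => ‖v ξ‖ₑ) ξ := hcm.const_mul _
  calc _ ≤ ∫⁻ ξ, (4 * (iw ξ * ‖w ξ‖ₑ) + ENNReal.ofReal (κ * e) * (wk 1 ξ * ‖v ξ‖ₑ)
        + ENNReal.ofReal (40 * e ^ 2) * cv (fun ξ => ‖v ξ‖ₑ) (fun ξ => ‖v ξ‖ₑ) ξ) :=
        lintegral_mono hpt
    _ = 4 * (∫⁻ ξ, iw ξ * ‖w ξ‖ₑ) + ENNReal.ofReal (κ * e) * (∫⁻ ξ, wk 1 ξ * ‖v ξ‖ₑ)
        + ENNReal.ofReal (40 * e ^ 2) * ((∫⁻ ξ, ‖v ξ‖ₑ) * ∫⁻ ξ, ‖v ξ‖ₑ) := by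
        rw [lintegral_add_right _ hm3', lintegral_add_right _ hm2',
          lintegral_const_mul _ k1, lintegral_const_mul _ k2,
          lintegral_const_mul _ hcm, hci]
    _ ≤ ENNReal.ofReal 4 * ENNReal.ofReal (c * D) + ENNReal.ofReal (κ * e) * ENNReal.ofReal m1
        + ENNReal.ofReal (40 * e ^ 2) * (ENNReal.ofReal m * ENNReal.ofReal m) := by
        refine add_le_add (add_le_add (mul_le_mul' (by simp) ?_) (mul_le_mul_right hv1 _))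
          (mul_le_mul_right (mul_le_mul' hv0 hv0) _)
        exact hiw _ D hD hwm hw1 hw2
    _ = _ := by
        rw [← ENNReal.ofReal_mul hm, ← ENNReal.ofReal_mul (by norm_num),
          ← ENNReal.ofReal_mul (by positivity), ← ENNReal.ofReal_mul (by positivity),
          ← ENNReal.ofReal_add (by positivity) (by positivity),
          ← ENNReal.ofReal_add (by positivity) (by positivity)]

theorem meas_aux (e : ℝ) (v w : E3 → C3) (hv : Measurable v) (hw : Measurable w) :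
    Measurable fun ξ => ‖e • v ξ + w ξ‖ₑ := by
  have h1 : Measurable fun ξ => e • v ξ := hv.const_smul e
  have h2 : Measurable fun ξ => e • v ξ + w ξ := h1.add hw
  exact h2.enorm

/-- bound of the approximate solution at one time -/
theorem g_bound (e D m : ℝ) (he : 0 ≤ e) (hD : 0 ≤ D) (hm : 0 ≤ m)
    (v w : E3 → C3) (hv : Measurable v) 
    (hw1 : ∀ ξ, ‖w ξ‖ₑ ≤ ENNReal.ofReal D) (hw2 : (∫⁻ ξ, ‖w ξ‖ₑ) ≤ ENNReal.ofReal D)
    (hv0 : (∫⁻ ξ, ‖v ξ‖ₑ) ≤ ENNReal.ofReal m) (hv1 : ∀ ξ, ‖v ξ‖ₑ ≤ ENNReal.ofReal m) :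
    (∀ ξ, ‖e • v ξ + w ξ‖ₑ ≤ ENNReal.ofReal (e * m + D)) ∧
    (∫⁻ ξ, ‖e • v ξ + w ξ‖ₑ) ≤ ENNReal.ofReal (e * m + D) := by
  have hpt : ∀ ξ, ‖e • v ξ + w ξ‖ₑ ≤ ENNReal.ofReal e * ‖v ξ‖ₑ + ‖w ξ‖ₑ := by
    intro ξ
    refine (enorm_add_le _ _).trans ?_
    rw [enorm_smul, Real.enorm_eq_ofReal he]
  rw [ENNReal.ofReal_add (by positivity) hD, ENNReal.ofReal_mul he]
  constructor
  · intro ξ
    exact (hpt ξ).trans (add_le_add (mul_le_mul_right (hv1 ξ) _) (hw1 ξ))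
  · calc (∫⁻ ξ, ‖e • v ξ + w ξ‖ₑ) ≤ ∫⁻ ξ, (ENNReal.ofReal e * ‖v ξ‖ₑ + ‖w ξ‖ₑ) :=
          lintegral_mono hpt
      _ = ENNReal.ofReal e * (∫⁻ ξ, ‖v ξ‖ₑ) + ∫⁻ ξ, ‖w ξ‖ₑ := by
          rw [lintegral_add_left (hv.enorm.const_mul _), lintegral_const_mul _ hv.enorm]
      _ ≤ _ := add_le_add (mul_le_mul_right hv0 _) hw2

/-- the integral of the square -/
theorem sq_int (c B T : ℝ) (hc : 0 < c) (hT : 0 ≤ T) :
    (∫ s in (0 : ℝ)..T, (B * Real.exp (-(c * |s| / 2))) ^ 2) ≤ B ^ 2 / c := by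
  have h1 : (∫ s in (0 : ℝ)..T, (B * Real.exp (-(c * |s| / 2))) ^ 2)
      = ∫ s in (0 : ℝ)..T, B ^ 2 * Real.exp (-(c * s)) := by
    apply intervalIntegral.integral_congr
    intro s hs
    rw [uIcc_of_le hT] at hs
    simp only
    rw [abs_of_nonneg hs.1, mul_pow, ← Real.exp_nat_mul]
    congr 2
    push_cast; ring
  have h2 : ∀ s ∈ uIcc (0 : ℝ) T, HasDerivAt (fun s => -(B ^ 2 / c) * Real.exp (-(c * s)))
      (B ^ 2 * Real.exp (-(c * s))) s := by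
    intro s _
    have e1 : HasDerivAt (fun s : ℝ => -(c * s)) (-(c * 1)) s :=
      ((hasDerivAt_id s).const_mul c).neg
    have e2 := (e1.exp).const_mul (-(B ^ 2 / c))
    refine e2.congr_deriv ?_
    field_simp
  rw [h1, intervalIntegral.integral_eq_sub_of_hasDerivAt h2
    (Continuous.intervalIntegrable (by fun_prop) _ _)]
  simp only [mul_zero, neg_zero, Real.exp_zero, mul_one]
  have h3 : 0 ≤ B ^ 2 / c * Real.exp (-(c * T)) := by positivity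
  linarith

theorem t_GB2 (hOC4 : S_OC4) (hRES : S_RES) (hVVP : S_VVP) (hNLB : S_NLB) (hCVM : S_CVM) :
    S_GB2 := by
  intro ν A hν hA
  obtain ⟨hVm, hVb, -, hVc, -, -, -⟩ := hVVP ν A hν hA
  have hR := hRES ν A (VV ν A) hν hA hVc
  obtain ⟨Cw, hCw, hw⟩ := fam_bd ν hν hOC4 (ww ν A (VV ν A)) (fun k => (hR k).2)
  obtain ⟨Cr, hCr, hr⟩ := fam_bd ν hν hOC4 (Rw ν A (VV ν A)) (fun k => (hR k).1)
  obtain ⟨M0, hM0i, hM0s⟩ := hVb 0
  obtain ⟨M1, hM1i, -⟩ := hVb 1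
  obtain ⟨c, hc, hiw⟩ := iw_bd
  set m : ℝ := (M0 : ℝ) with hm
  set m1 : ℝ := (M1 : ℝ) with hm1
  have hm0 : 0 ≤ m := M0.2
  have hm10 : 0 ≤ m1 := M1.2
  have em : ENNReal.ofReal m = M0 := ENNReal.ofReal_coe_nnreal
  have em1 : ENNReal.ofReal m1 = M1 := ENNReal.ofReal_coe_nnreal
  have hwk : ∀ ξ : E3, wk 0 ξ = 1 := fun ξ => by simp [wk]
  simp only [hwk, one_mul] at hM0i hM0s
  rw [← em] at hM0i
  rw [← em1] at hM1i
  have hM0s' : ∀ ξ, ‖Vh ν A ξ‖ₑ ≤ ENNReal.ofReal m := fun ξ => by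
    rw [em]; exact hM0s ξ
  set κ : ℝ := 4 * Real.pi ^ 2 * ν with hκ
  have hκ0 : 0 < κ := by positivity
  set a : ℝ := m + Cw with ha
  have ha0 : 0 ≤ a := by positivity
  set C' : ℝ := 4 * (c * Cr) + κ * m1 + 40 * (m * m) with hC'
  have hC'0 : 0 ≤ C' := by positivity
  refine ⟨a ^ 2 / ν + 2 * C' / ν + c * a, by positivity, fun n => ?_⟩
  have hN1 := NN_one n
  have hN0 : 0 < NN n := by linarith
  obtain ⟨hwm, hwb⟩ := hw n
  obtain ⟨hrm, hrb⟩ := hr n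
  -- the exponentials
  have hexp : ∀ t, 0 ≤ t → Real.exp (-(2 * ta ν n t)) ≤ NN n * Real.exp (-(ta ν n t / 2)) := by
    intro t ht
    have hta : 0 ≤ ta ν n t := by unfold ta; positivity
    calc Real.exp (-(2 * ta ν n t)) ≤ 1 * Real.exp (-(ta ν n t / 2)) := by
          rw [one_mul]; apply Real.exp_le_exp.2; linarith
      _ ≤ _ := by gcongr
  have hexp1 : ∀ t, 0 ≤ t → Real.exp (-(2 * ta ν n t)) ≤ 1 := by
    intro t ht
    have hta : 0 ≤ ta ν n t := by unfold ta; positivity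
    apply Real.exp_le_one_iff.2
    linarith
  -- bounds for g
  have hg : ∀ t, 0 ≤ t → (∀ ξ, nm (gg ν A n) t ξ
        ≤ ENNReal.ofReal (a * NN n * Real.exp (-(ta ν n t / 2)))) ∧
      (∫⁻ ξ, nm (gg ν A n) t ξ) ≤ ENNReal.ofReal (a * NN n * Real.exp (-(ta ν n t / 2))) := by
    intro t ht
    have h := g_bound (Real.exp (-(2 * ta ν n t))) (Cw * NN n * Real.exp (-(ta ν n t / 2))) m
      (Real.exp_pos _).le (by positivity) hm0 (Vh ν A) (fth (wf ν A (VV ν A) n t)) hVm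
      (hwb t ht).1 (hwb t ht).2 hM0i hM0s'
    have hle : Real.exp (-(2 * ta ν n t)) * m + Cw * NN n * Real.exp (-(ta ν n t / 2))
        ≤ a * NN n * Real.exp (-(ta ν n t / 2)) := by
      have := mul_le_mul_of_nonneg_right (hexp t ht) hm0
      rw [ha]; linarith
    exact ⟨fun ξ => (h.1 ξ).trans (ENNReal.ofReal_le_ofReal hle),
      h.2.trans (ENNReal.ofReal_le_ofReal hle)⟩
  have hgm : ∀ t, Measurable fun ξ => nm (gg ν A n) t ξ := by
    intro t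
    have e : Measurable fun ξ : E3 => ((t, ξ) : ℝ × E3) := measurable_const.prodMk measurable_id
    have h1 := hwm.comp e
    have h2 : Measurable (fth (wf ν A (VV ν A) n t)) := h1
    exact meas_aux (Real.exp (-(2 * ta ν n t))) (Vh ν A) (fth (wf ν A (VV ν A) n t)) hVm h2
  refine ⟨⟨fun t => a * NN n * Real.exp (-(ν * NN n ^ 2 * |t| / 2)), by fun_prop,
    fun t => by positivity, ?_, ?_⟩, ?_, ?_⟩
  · intro T hT
    refine (sq_int (ν * NN n ^ 2) (a * NN n) T (by positivity) hT).trans ?_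
    have h1 : (a * NN n) ^ 2 / (ν * NN n ^ 2) = a ^ 2 / ν := by field_simp
    rw [h1]
    have : 0 ≤ 2 * C' / ν := by positivity
    have : 0 ≤ c * a := by positivity
    linarith
  · intro t ht
    have := (hg t ht).2
    show (∫⁻ ξ, nm (gg ν A n) t ξ) ≤ ENNReal.ofReal (a * NN n * Real.exp (-(ν * NN n ^ 2 * |t| / 2)))
    rw [abs_of_nonneg ht]
    exact this
  · have hpt : ∀ s ∈ Ioi (0 : ℝ), (∫⁻ ξ, iw ξ * nm (Rr ν A n) s ξ)
        ≤ ENNReal.ofReal (C' * NN n * Real.exp (-(ν * NN n ^ 2 / 2 * s))) := by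
      intro s hs
      have hs0 : 0 ≤ s := le_of_lt hs
      have e : Measurable fun ξ : E3 => ((s, ξ) : ℝ × E3) := measurable_const.prodMk measurable_id
      have h1 := hrm.comp e
      have h2 : Measurable (fth (Rwf ν A (VV ν A) n s)) := h1
      have h := r_bound hNLB hCVM c hiw hc κ (Real.exp (-(2 * ta ν n s)))
        (Cr * NN n * Real.exp (-(ta ν n s / 2))) m m1 hκ0.le (Real.exp_pos _).le (by positivity)
        hm0 hm10 (Vh ν A) (fth (Rwf ν A (VV ν A) n s)) hVm h2 (hrb s hs0).1 (hrb s hs0).2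
        hM0i hM1i
      refine h.trans (ENNReal.ofReal_le_ofReal ?_)
      have e1 := hexp s hs0
      have e2 := hexp1 s hs0
      have e3 := Real.exp_pos (-(2 * ta ν n s))
      have e4 : Real.exp (-(2 * ta ν n s)) ^ 2 ≤ NN n * Real.exp (-(ta ν n s / 2)) := by
        nlinarith
      have e5 : Real.exp (-(ν * NN n ^ 2 / 2 * s)) = Real.exp (-(ta ν n s / 2)) := by
        congr 1; unfold ta; ring
      rw [e5, hC']
      have f1 := mul_le_mul_of_nonneg_left e1 (by positivity : 0 ≤ κ * m1)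
      have f2 := mul_le_mul_of_nonneg_left e4 (by positivity : 0 ≤ 40 * (m * m))
      linarith
    calc (∫⁻ s in Ioi 0, ∫⁻ ξ, iw ξ * nm (Rr ν A n) s ξ)
        ≤ ∫⁻ s in Ioi (0 : ℝ), ENNReal.ofReal (C' * NN n * Real.exp (-(ν * NN n ^ 2 / 2 * s))) :=
          setLIntegral_mono' measurableSet_Ioi hpt
      _ = ENNReal.ofReal (C' * NN n / (ν * NN n ^ 2 / 2)) :=
          exp_int _ _ (by positivity) (by positivity)
      _ ≤ _ := by
          apply ENNReal.ofReal_le_ofReal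
          have h1 : C' * NN n / (ν * NN n ^ 2 / 2) = (2 * C' / ν) / NN n := by field_simp
          rw [h1]
          have : 0 ≤ a ^ 2 / ν := by positivity
          have : 0 ≤ c * a := by positivity
          gcongr
          linarith
  · intro t ht
    have h := hg t ht
    refine (hiw _ _ (by positivity) (hgm t) h.1 h.2).trans (ENNReal.ofReal_le_ofReal ?_)
    have : 0 ≤ 2 * C' / ν := by positivity
    have : 0 ≤ a ^ 2 / ν := by positivity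
    have e3 := Real.exp_pos (-(ta ν n t / 2))
    have : 0 ≤ (a ^ 2 / ν + 2 * C' / ν) * NN n * Real.exp (-(ta ν n t / 2)) := by positivity
    linarith

end Pool.Agent.Run7.h264.AX
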