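import Pool.Agent.Run7.h148.AX.Stm2

/-!
Project AX (helper148), piece GEQ.
-/

set_option autoImplicit false

open MeasureTheory Set Filter Topology
open scoped ENNReal ContDiff FourierTransform

namespace Pool.Agent.Run7.h264.AX

open Pool.Agent.Run7.h148.AX

theorem wk_zero (ξ : E3) : wk 0 ξ = 1 := by simp [wk]

/-- pointwise bound of `cv` -/
theorem cv_le {f g : E3 → ℝ≥0∞} {M M' : ℝ≥0∞} (hf : ∀ ξ, f ξ ≤ M) (hg : (∫⁻ ξ, g ξ) ≤ M')
    (hgm : Measurable g) (ξ : E3) : cv f g ξ ≤ M * M' := by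
  unfold cv
  calc (∫⁻ η, f (ξ - η) * g η) ≤ ∫⁻ η, M * g η := by
        apply lintegral_mono
        intro η
        exact mul_le_mul_left (hf _) _
    _ = M * ∫⁻ η, g η := lintegral_const_mul _ hgm
    _ ≤ M * M' := mul_le_mul_right hg _

/-- variation of constants for a bounded measurable right hand side -/
theorem voc (c t B : ℝ) (ht0 : 0 ≤ t) (u D : ℝ → C3) (hD : Measurable D)
    (hB : ∀ s ∈ Ioc (0 : ℝ) t, ‖D s‖ ≤ B)
    (hu : ∀ s, HasDerivAt u (-c • u s + D s) s) :
    u t = Real.exp (-(c * t)) • u 0 + ∫ s in Ioc 0 t, Real.exp (-(c * (t - s))) • D s := by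
  have hφ' : ∀ s, HasDerivAt (fun s : ℝ => Real.exp (c * s) • u s) (Real.exp (c * s) • D s) s := by
    intro s
    have e1 : HasDerivAt (fun s : ℝ => Real.exp (c * s)) (Real.exp (c * s) * (c * 1)) s :=
      ((hasDerivAt_id s).const_mul c).exp
    refine (e1.fun_smul (hu s)).congr_deriv ?_
    rw [smul_add, smul_smul, mul_one,
      show Real.exp (c * s) * -c = -(Real.exp (c * s) * c) by ring, neg_smul]
    abel
  have hint : IntervalIntegrable (fun s => Real.exp (c * s) • D s) volume 0 t := by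
    rw [intervalIntegrable_iff_integrableOn_Ioc_of_le ht0]
    refine Measure.integrableOn_of_bounded (M := Real.exp (|c| * t) * B) (by simp) ?_ ?_
    · apply Measurable.aestronglyMeasurable
      exact (by fun_prop : Measurable fun s : ℝ => Real.exp (c * s)).smul hD
    · refine (ae_restrict_iff' measurableSet_Ioc).2 (Eventually.of_forall fun s hs => ?_)
      rw [norm_smul, Real.norm_eq_abs, Real.abs_exp]
      refine mul_le_mul ?_ (hB s hs) (norm_nonneg _) (Real.exp_pos _).le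
      apply Real.exp_le_exp.2
      calc c * s ≤ |c| * s := mul_le_mul_of_nonneg_right (le_abs_self c) hs.1.le
        _ ≤ |c| * t := mul_le_mul_of_nonneg_left hs.2 (abs_nonneg c)
  have hftc := intervalIntegral.integral_eq_sub_of_hasDerivAt (fun s _ => hφ' s) hint
  rw [intervalIntegral.integral_of_le ht0] at hftc
  have hkey : ∀ s, Real.exp (-(c * (t - s))) • D s
      = Real.exp (-(c * t)) • (Real.exp (c * s) • D s) := by
    intro s
    rw [smul_smul, ← Real.exp_add]
    congr 2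
    ring
  simp only [hkey]
  rw [integral_smul, hftc, smul_sub, smul_smul, ← Real.exp_add, neg_add_cancel, Real.exp_zero,
    mul_zero, Real.exp_zero, one_smul, one_smul]
  abel

theorem geq_core (κ t : ℝ) (ht0 : 0 ≤ t) (ξ : E3) (g R : ℝ → E3 → C3) (hNM : S_NLM) (hNB : S_NLB)
    (hgm : Measurable (Function.uncurry g)) (hgT : Tame (nm g))
    (hRm : Measurable (Function.uncurry R)) (hRT : Tame (nm R))
    (hder : ∀ s, HasDerivAt (fun s => g s ξ)
      (-(κ * ‖ξ‖ ^ 2) • g s ξ + nl (g s) (g s) ξ + R s ξ) s) :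
    g t ξ = ht κ ξ t • g 0 ξ
      + ∫ s in Ioc 0 t, ht κ ξ (t - s) • (nl (g s) (g s) ξ + R s ξ) := by
  have hDm : Measurable fun s => nl (g s) (g s) ξ + R s ξ := by
    have e : Measurable fun s : ℝ => ((s, ξ) : ℝ × E3) := measurable_id.prodMk measurable_const
    have h1 := (hNM g g hgm hgm).comp e
    have h2 := hRm.comp e
    have h3 : Measurable fun s : ℝ => nl (g s) (g s) ξ := h1
    have h4 : Measurable fun s : ℝ => R s ξ := h2
    exact h3.add h4
  obtain ⟨M, hM⟩ := hgT.2 0 t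
  obtain ⟨M', hM'⟩ := hRT.2 0 t
  have hbd : ∀ s ∈ Ioc (0 : ℝ) t, ‖nl (g s) (g s) ξ + R s ξ‖
      ≤ (40 * nw ξ * (M * M) + M' : ℝ≥0∞).toReal := by
    intro s hs
    have h1 := hM s ⟨hs.1.le, hs.2⟩
    have h2 := hM' s ⟨hs.1.le, hs.2⟩
    simp only [wk_zero, one_mul] at h1 h2
    have hgs : Measurable fun η => ‖g s η‖ₑ :=
      (hgm.comp (measurable_const.prodMk measurable_id)).enorm
    have h3 : ‖nl (g s) (g s) ξ‖ₑ ≤ 40 * nw ξ * (M * M) := by
      refine (hNB (g s) (g s) ξ).trans ?_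
      refine mul_le_mul_right ?_ _
      exact cv_le h1.2 h1.1 hgs ξ
    have h4 : ‖nl (g s) (g s) ξ + R s ξ‖ₑ ≤ 40 * nw ξ * (M * M) + M' := by
      refine (enorm_add_le _ _).trans ?_
      exact add_le_add h3 (h2.2 ξ)
    have h5 : (40 * nw ξ * (M * M) + M' : ℝ≥0∞) ≠ ⊤ := by
      have : nw ξ ≠ ⊤ := by simp [nw]
      finiteness
    rw [← toReal_enorm]
    exact ENNReal.toReal_mono h5 h4
  have := voc (κ * ‖ξ‖ ^ 2) t _ ht0 (fun s => g s ξ) (fun s => nl (g s) (g s) ξ + R s ξ) hDm hbd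
    (fun s => by
      have := hder s
      rw [add_assoc] at this
      exact this)
  exact this

theorem t_GEQ (hGQ : S_GQ1) (hGB : S_GB1) (hNM : S_NLM) (hNB : S_NLB) : S_GEQ := by
  intro ν A hν hA n t ht0 ξ
  have h := hGB ν A hν hA n
  exact geq_core (4 * Real.pi ^ 2 * ν) t ht0 ξ (gg ν A n) (Rr ν A n) hNM hNB h.1.1 h.1.2
    h.2.1.1 h.2.1.2 (fun s => hGQ ν A hν hA n s ξ)

end Pool.Agent.Run7.h264.AX
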