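import Pool.Agent.Run7.h148.AX.Stm2

/-!
Project AX (helper148), piece NSA.
-/

set_option autoImplicit false

open MeasureTheory Set Filter Topology
open scoped ENNReal ContDiff FourierTransform

namespace Pool.Agent.Run7.h264.AX

open Pool.Agent.Run7.h148.AX

theorem nsa_iw_meas : Measurable iw := by
  unfold iw
  fun_prop

theorem nsa_core (κ K η δ : ℝ) (H : ℝ → ℝ) (R g : ℝ → E3 → C3) (hPTB : S_PTB)
    (hκ : 0 < κ) (hK : 0 ≤ K) (hη : 0 ≤ η) (hδ : 0 < δ) (hHc : Continuous H) (hH0 : ∀ t, 0 ≤ H t)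
    (hHK : ∀ T, 0 ≤ T → (∫ s in (0 : ℝ)..T, H s ^ 2) ≤ K) (hR : TameV R) (hg : TameV g)
    (hRs : ∀ t, Sym (R t)) (hgs : ∀ t, Sym (g t))
    (hgH : ∀ t, 0 ≤ t → (∫⁻ ξ, nm g t ξ) ≤ ENNReal.ofReal (H t))
    (hRη : (∫⁻ s in Ioi 0, ∫⁻ ξ, iw ξ * nm R s ξ) ≤ ENNReal.ofReal η)
    (hsm : 25600 * η * Real.exp (25600 / κ * K) ≤ κ)
    (heq : ∀ t, 0 ≤ t → ∀ ξ, g t ξ = ht κ ξ t • g 0 ξ
      + ∫ s in Ioc 0 t, ht κ ξ (t - s) • (nl (g s) (g s) ξ + R s ξ))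
    (h4 : 4 * η * Real.exp (25600 / κ * K) ≤ δ / 2)
    (hg2 : ∀ t, δ ≤ t → (∫⁻ ξ, iw ξ * nm g t ξ) ≤ ENNReal.ofReal (δ / 2)) :
    ∃ u : ℝ → E3 → C3, TameV u ∧ Mild κ u ∧ (∀ t, 0 ≤ t → Sym (u t)) ∧ (∀ ξ, u 0 ξ = g 0 ξ) ∧
      ∀ t, δ ≤ t → (∫⁻ ξ, iw ξ * ‖u t ξ‖ₑ) ≤ ENNReal.ofReal δ := by
  obtain ⟨u, h1, h2, h3, h5, h6⟩ := hPTB κ K η H R g hκ hK hη hHc hH0 hHK hR hg hRs hgs hgH hRη
    hsm heq
  refine ⟨u, h1, h2, h3, h5, ?_⟩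
  intro t ht
  have hgm : Measurable fun ξ => ‖g t ξ‖ₑ :=
    (hg.1.comp (measurable_const.prodMk measurable_id)).enorm
  calc (∫⁻ ξ, iw ξ * ‖u t ξ‖ₑ) ≤ ∫⁻ ξ, (iw ξ * ‖u t ξ - g t ξ‖ₑ + iw ξ * ‖g t ξ‖ₑ) := by
        apply lintegral_mono
        intro ξ
        show iw ξ * ‖u t ξ‖ₑ ≤ iw ξ * ‖u t ξ - g t ξ‖ₑ + iw ξ * ‖g t ξ‖ₑ
        rw [← mul_add]
        gcongr
        calc ‖u t ξ‖ₑ = ‖(u t ξ - g t ξ) + g t ξ‖ₑ := by rw [sub_add_cancel]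
          _ ≤ _ := enorm_add_le _ _
    _ = (∫⁻ ξ, iw ξ * ‖u t ξ - g t ξ‖ₑ) + ∫⁻ ξ, iw ξ * ‖g t ξ‖ₑ :=
        lintegral_add_right _ (nsa_iw_meas.mul hgm)
    _ ≤ ENNReal.ofReal (δ / 2) + ENNReal.ofReal (δ / 2) := by
        gcongr
        · exact (h6 t (hδ.le.trans ht)).trans (ENNReal.ofReal_le_ofReal h4)
        · exact hg2 t ht
    _ = ENNReal.ofReal δ := by
        rw [← ENNReal.ofReal_add (by positivity) (by positivity), add_halves]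

theorem t_NSA (hPTB : S_PTB) (hGB1 : S_GB1) (hGB2 : S_GB2) (hGEQ : S_GEQ) : S_NSA := by
  intro ν A δ hν hA hδ
  obtain ⟨C, hC, hn⟩ := hGB2 ν A hν hA
  set κ : ℝ := 4 * Real.pi ^ 2 * ν with hκ
  have hκ0 : 0 < κ := by positivity
  set E : ℝ := Real.exp (25600 / κ * C) with hE
  have hE0 : 0 < E := Real.exp_pos _
  obtain ⟨n₀, hn₀⟩ := exists_nat_ge (25600 * C * E / κ + 8 * C * E / δ + 4 * C / (ν * δ ^ 2))
  refine ⟨n₀, fun n hnn => ?_⟩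
  have hN : (n₀ : ℝ) ≤ NN n := by
    have : (n₀ : ℝ) ≤ n := by exact_mod_cast hnn
    unfold NN; linarith
  have hN1 : (1 : ℝ) ≤ NN n := by
    unfold NN
    have : (0 : ℝ) ≤ n := Nat.cast_nonneg n
    linarith
  have hN0 : (0 : ℝ) < NN n := by linarith
  have a1 : 0 ≤ 25600 * C * E / κ := by positivity
  have a2 : 0 ≤ 8 * C * E / δ := by positivity
  have a3 : 0 ≤ 4 * C / (ν * δ ^ 2) := by positivity
  have b1 : 25600 * C * E / κ ≤ NN n := by linarith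
  have b2 : 8 * C * E / δ ≤ NN n := by linarith
  have b3 : 4 * C / (ν * δ ^ 2) ≤ NN n := by linarith
  rw [div_le_iff₀ (by positivity)] at b1 b2 b3
  obtain ⟨⟨H, hHc, hH0, hHK, hgH⟩, hRη, hg2⟩ := hn n
  obtain ⟨g1, g2, g3, g4⟩ := hGB1 ν A hν hA n
  refine nsa_core κ C (C / NN n) δ H (Rr ν A n) (gg ν A n) hPTB hκ0 hC (by positivity) hδ hHc hH0
    hHK g2 g1 g4 g3 hgH hRη ?_ (fun t ht ξ => hGEQ ν A hν hA n t ht ξ) ?_ ?_
  · rw [← hE, show 25600 * (C / NN n) * E = 25600 * C * E / NN n by ring,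
      div_le_iff₀ hN0]
    linarith
  · rw [← hE, show 4 * (C / NN n) * E = 4 * C * E / NN n by ring, div_le_iff₀ hN0]
    linarith
  · intro t ht
    refine (hg2 t (hδ.le.trans ht)).trans (ENNReal.ofReal_le_ofReal ?_)
    have h1 : Real.exp (-(ta ν n t / 2)) ≤ 2 / (ν * NN n ^ 2 * δ) := by
      have h2 : ν * NN n ^ 2 * δ / 2 ≤ ta ν n t / 2 := by
        unfold ta
        gcongr
      have h3 : 0 < ν * NN n ^ 2 * δ / 2 := by positivity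
      calc Real.exp (-(ta ν n t / 2)) ≤ Real.exp (-(ν * NN n ^ 2 * δ / 2)) := by
            apply Real.exp_le_exp.2; linarith
        _ = (Real.exp (ν * NN n ^ 2 * δ / 2))⁻¹ := Real.exp_neg _
        _ ≤ (ν * NN n ^ 2 * δ / 2)⁻¹ := by
            apply inv_anti₀ h3
            linarith [Real.add_one_le_exp (ν * NN n ^ 2 * δ / 2)]
        _ = 2 / (ν * NN n ^ 2 * δ) := by rw [inv_div]
    calc C * NN n * Real.exp (-(ta ν n t / 2)) ≤ C * NN n * (2 / (ν * NN n ^ 2 * δ)) := by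
          gcongr
      _ = 2 * C / (ν * δ) / NN n := by field_simp
      _ ≤ δ / 2 := by
          rw [div_le_iff₀ hN0, div_le_iff₀ (by positivity)]
          nlinarith

end Pool.Agent.Run7.h264.AX
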